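import Mathlib
import Pool.Agent.W774.TL.Stm

set_option autoImplicit false

namespace Pool.Agent.W330.TL

open Set Filter Topology
open Pool.Agent.W774.TL

theorem sg_bd {y : ℝ} (hy : 1000000 ≤ y) : 0 ≤ 1 - sg y ∧ 1 - sg y ≤ 1 / 1000000 := by
  have he : y + 1 ≤ Real.exp y := Real.add_one_le_exp y
  have hpos : 0 < 1 + Real.exp y := by positivity
  have h1 : 1 - sg y = 1 / (1 + Real.exp y) := by
    unfold sg
    field_simp
    ring
  rw [h1]
  refine ⟨by positivity, ?_⟩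
  apply one_div_le_one_div_of_le (by norm_num)
  linarith

theorem S_abs (u : ℝ) : |S u| ≤ |u| := by
  unfold S
  have hp : 0 < 2 * Real.pi := by positivity
  rw [abs_div, abs_of_pos hp, div_le_iff₀ hp]
  have h1 : |Real.sin (2 * Real.pi * u)| ≤ |2 * Real.pi * u| := Real.abs_sin_le_abs
  rw [abs_mul, abs_of_pos hp] at h1
  linarith

theorem S_low {u : ℝ} (h0 : 0 ≤ u) (h1 : u ≤ 1 / 4) : u / 2 ≤ S u := by
  unfold S
  have hp : 0 < 2 * Real.pi := by positivity
  have hpi := Real.pi_pos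
  rw [le_div_iff₀ hp]
  have h2 := Real.mul_le_sin (x := 2 * Real.pi * u) (by positivity) (by nlinarith)
  have h3 : 2 / Real.pi * (2 * Real.pi * u) = 4 * u := by
    field_simp
    ring
  rw [h3] at h2
  have h4 : Real.pi ≤ 4 := Real.pi_le_four
  nlinarith

theorem S_one (u : ℝ) : -(1 / 6) ≤ S u := by
  unfold S
  have hp : 0 < 2 * Real.pi := by positivity
  rw [le_div_iff₀ hp]
  have h1 := Real.neg_one_le_sin (2 * Real.pi * u)
  have h2 := Real.pi_gt_three
  linarith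

theorem Co_bd {b : ℝ} (hb : |b| ≤ 82 / 100000) : 0 ≤ 1 - Co b ∧ 1 - Co b ≤ 14 / 1000000 := by
  unfold Co
  have h1 := Real.one_sub_sq_div_two_le_cos (x := 2 * Real.pi * b)
  have h2 := Real.cos_le_one (2 * Real.pi * b)
  have h3 := Real.pi_lt_d2
  have h4 := Real.pi_pos
  have h5 : b ^ 2 ≤ (82 / 100000) ^ 2 := by
    rw [← sq_abs]
    exact pow_le_pow_left₀ (abs_nonneg b) hb 2
  have h6 : Real.pi ^ 2 ≤ 3.15 ^ 2 := pow_le_pow_left₀ h4.le h3.le 2
  refine ⟨by linarith, ?_⟩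
  have h7 : (2 * Real.pi * b) ^ 2 / 2 = 2 * (Real.pi ^ 2 * b ^ 2) := by ring
  have h8 : Real.pi ^ 2 * b ^ 2 ≤ 3.15 ^ 2 * (82 / 100000) ^ 2 :=
    mul_le_mul h6 h5 (by positivity) (by positivity)
  rw [h7] at h1
  have h9 : (2 : ℝ) * (3.15 ^ 2 * (82 / 100000) ^ 2) ≤ 14 / 1000000 := by norm_num
  linarith

theorem y_low {A s a p : ℝ} (hA : 0 < A) (hs : 1 / 500 ≤ s) (hs2 : s ≤ 1 / 2)
    (hb : |a - s| ≤ 82 / 100000) (hp : |p - A * (3 / 2 + 3 * s)| ≤ 266 / 100000 * A) :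
    A / 1000 ≤ yy A s a p := by
  unfold yy
  have h1 := abs_le.1 hp
  have h2 := abs_le.1 (S_abs (a - s))
  have h3 := abs_le.1 hb
  have key : 1 / 1000 ≤ (3 * s - 266 / 100000) - 3 * S (a - s) + S a := by
    have h4 : S (a - s) ≤ 82 / 100000 := by linarith [h2.2]
    by_cases hc : s ≤ 1 / 5
    · have h5 := S_low (u := a) (by linarith [h3.1]) (by linarith [h3.2])
      linarith [h3.1]
    · push Not at hc
      have h5 := S_one a
      linarith
  have h6 : A * (1 / 1000) ≤ A * ((3 * s - 266 / 100000) - 3 * S (a - s) + S a) :=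
    mul_le_mul_of_nonneg_left key hA.le
  have h7 : p ≥ A * (3 / 2 + 3 * s) - 266 / 100000 * A := by linarith [h1.1]
  nlinarith

theorem est {A G s a p a' p' : ℝ} (hG : 0 ≤ G) (hA : 1000000000 * (1 + G) ≤ A)
    (hs : 1 / 500 ≤ s) (hs2 : s ≤ 1 / 2)
    (hb : |a - s| ≤ 82 / 100000) (hp : |p - A * (3 / 2 + 3 * s)| ≤ 266 / 100000 * A)
    (hsys : (R1 A s a p ∨ R3 A s a p) →
      |a' - sg (yy A s a p)| ≤ 1 / A ^ 2 ∧
      |p' - A * ((1 - sg (yy A s a p)) * Co a + 3 * sg (yy A s a p) * Co (a - s))| ≤ 1 + G) :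
    R3 A s a p ∧ |a' - 1| ≤ 3 / 1000000 ∧ |p' - 3 * A| ≤ 5 / 100000 * A := by
  have hA9 : 1000000000 ≤ A := by nlinarith
  have hA0 : 0 < A := by linarith
  have hR : R3 A s a p := by
    refine ⟨by linarith, hs2, by linarith, ?_⟩
    linarith
  refine ⟨hR, ?_⟩
  obtain ⟨h1, h2⟩ := hsys (Or.inr hR)
  have hy := y_low hA0 hs hs2 hb hp
  have hy6 : 1000000 ≤ yy A s a p := by linarith
  obtain ⟨g0, g1⟩ := sg_bd hy6
  set σ := sg (yy A s a p) with hσ
  obtain ⟨c0, c1⟩ := Co_bd hb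
  have hA2 : 1 / A ^ 2 ≤ 1 / 1000000 := by
    apply one_div_le_one_div_of_le (by norm_num)
    nlinarith
  constructor
  · have e1 : a' - 1 = (a' - σ) - (1 - σ) := by ring
    rw [e1]
    have := abs_sub (a' - σ) (1 - σ)
    have h3 : |1 - σ| = 1 - σ := abs_of_nonneg g0
    calc |a' - σ - (1 - σ)| ≤ |a' - σ| + |1 - σ| := by
          simpa using this
      _ ≤ 3 / 1000000 := by rw [h3]; linarith
  · have hCa : |Co a| ≤ 1 := by
      unfold Co
      exact Real.abs_cos_le_one _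
    have hCa' := abs_le.1 hCa
    have hCb : |Co (a - s)| ≤ 1 := by
      unfold Co
      exact Real.abs_cos_le_one _
    have hCb' := abs_le.1 hCb
    have h2' := abs_le.1 h2
    -- the mean field
    have m1 : |((1 - σ) * Co a + 3 * σ * Co (a - s)) - 3| ≤ 47 / 1000000 := by
      have e : ((1 - σ) * Co a + 3 * σ * Co (a - s)) - 3 =
          (1 - σ) * Co a - 3 * ((1 - Co (a - s)) + (1 - σ) * Co (a - s)) := by ring
      rw [e, abs_le]
      have u1 : |(1 - σ) * Co a| ≤ 1 / 1000000 := by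
        rw [abs_mul, abs_of_nonneg g0]
        nlinarith [abs_nonneg (Co a)]
      have u2 : |(1 - σ) * Co (a - s)| ≤ 1 / 1000000 := by
        rw [abs_mul, abs_of_nonneg g0]
        nlinarith [abs_nonneg (Co (a - s))]
      have u1' := abs_le.1 u1
      have u2' := abs_le.1 u2
      constructor
      · linarith [u1'.1, u2'.2]
      · linarith [u1'.2, u2'.1]
    have m1' := abs_le.1 m1
    have m2 : A * ((1 - σ) * Co a + 3 * σ * Co (a - s)) - 3 * A ≤ 47 / 1000000 * A := by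
      nlinarith [m1'.2]
    have m3 : -(47 / 1000000 * A) ≤ A * ((1 - σ) * Co a + 3 * σ * Co (a - s)) - 3 * A := by
      nlinarith [m1'.1]
    have hG2 : 1 + G ≤ 1 / 1000000 * A := by nlinarith
    rw [abs_le]
    constructor
    · linarith [h2'.1]
    · linarith [h2'.2]

/-- continuity principle -/
theorem boot {F : ℝ → ℝ} {l r : ℝ} (hF : ContinuousOn F (Icc l r))
    (h : ∀ τ ∈ Icc l r, (∀ s ∈ Ico l τ, F s ≤ 1) → F τ < 1) :
    ∀ τ ∈ Icc l r, F τ ≤ 1 := by
  by_contra hc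
  push Not at hc
  obtain ⟨τ1, hτ1, hF1⟩ := hc
  set B : Set ℝ := Icc l r ∩ F ⁻¹' (Ici 1) with hB
  have hBc : IsClosed B := hF.preimage_isClosed_of_isClosed isClosed_Icc isClosed_Ici
  have hBn : B.Nonempty := ⟨τ1, hτ1, hF1.le⟩
  have hBb : BddBelow B := ⟨l, fun x hx => hx.1.1⟩
  have hmem : sInf B ∈ B := hBc.csInf_mem hBn hBb
  have h1 : ∀ s ∈ Ico l (sInf B), F s ≤ 1 := by
    intro s hs
    by_contra hc
    push Not at hc
    have : s ∈ B := ⟨⟨hs.1, le_trans hs.2.le hmem.1.2⟩, hc.le⟩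
    exact absurd (csInf_le hBb this) (not_le.2 hs.2)
  have h2 := h _ hmem.1 h1
  exact absurd hmem.2 (not_le.2 h2)

theorem j3_thm : P_J3 := by
  intro G hG
  refine ⟨1000000000 * (1 + G), ?_⟩
  intro A hA a p a' p' hsys ha hp
  have hA9 : 1000000000 ≤ A := by nlinarith
  have hA0 : 0 < A := by linarith
  have ha' := abs_le.1 ha
  have hp' := abs_le.1 hp
  set b0 : ℝ := a (1 / 500) - 1 / 500 with hb0
  set p0 : ℝ := p (1 / 500) with hp0
  set f1 : ℝ → ℝ := fun τ => a τ - τ with hf1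
  set f2 : ℝ → ℝ := fun τ => p τ - 3 * A * (τ - 1 / 500) with hf2
  have d1 : ∀ τ ∈ Icc (1 / 500 : ℝ) (1 / 2), HasDerivAt f1 (a' τ - 1) τ := by
    intro τ hτ
    exact (hsys τ hτ).1.sub (hasDerivAt_id τ)
  have d2 : ∀ τ ∈ Icc (1 / 500 : ℝ) (1 / 2), HasDerivAt f2 (p' τ - 3 * A) τ := by
    intro τ hτ
    have h1 : HasDerivAt (fun τ : ℝ => 3 * A * (τ - 1 / 500)) (3 * A * 1) τ :=
      ((hasDerivAt_id τ).sub_const (1 / 500)).const_mul (3 * A)
    have h2 := (hsys τ hτ).2.1.sub h1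
    rw [mul_one] at h2
    exact h2
  have c1 : ContinuousOn f1 (Icc (1 / 500) (1 / 2)) := fun τ hτ =>
    (d1 τ hτ).continuousAt.continuousWithinAt
  have c2 : ContinuousOn f2 (Icc (1 / 500) (1 / 2)) := fun τ hτ =>
    (d2 τ hτ).continuousAt.continuousWithinAt
  set F : ℝ → ℝ := fun τ => max (50000 * |f1 τ - f1 (1 / 500)|)
    (50000 / (3 * A) * |f2 τ - f2 (1 / 500)|) with hF
  have cF : ContinuousOn F (Icc (1 / 500) (1 / 2)) := by
    apply ContinuousOn.sup
    · exact continuousOn_const.mul (c1.sub continuousOn_const).abs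
    · exact continuousOn_const.mul (c2.sub continuousOn_const).abs
  have e1 : f1 (1 / 500) = b0 := rfl
  have e2 : f2 (1 / 500) = p0 := by
    simp [hf2, hp0]
  -- consequences of F ≤ 1
  have cons : ∀ s ∈ Icc (1 / 500 : ℝ) (1 / 2), F s ≤ 1 →
      |a s - s| ≤ 82 / 100000 ∧ |p s - A * (3 / 2 + 3 * s)| ≤ 266 / 100000 * A ∧
      |(a s - s) - b0| ≤ 1 / 50000 ∧ |p s - p0 - 3 * A * (s - 1 / 500)| ≤ 3 * A / 50000 := by
    intro s hs hFs
    have g1 : 50000 * |f1 s - f1 (1 / 500)| ≤ 1 := le_trans (le_max_left _ _) hFs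
    have g2 : 50000 / (3 * A) * |f2 s - f2 (1 / 500)| ≤ 1 := le_trans (le_max_right _ _) hFs
    have g1' : |(a s - s) - b0| ≤ 1 / 50000 := by
      have : |f1 s - f1 (1 / 500)| = |(a s - s) - b0| := rfl
      rw [this] at g1
      linarith
    have g2' : |p s - p0 - 3 * A * (s - 1 / 500)| ≤ 3 * A / 50000 := by
      have e : f2 s - f2 (1 / 500) = p s - p0 - 3 * A * (s - 1 / 500) := by
        rw [e2]
        simp only [hf2]
        ring
      rw [e, div_mul_eq_mul_div, div_le_one (by positivity)] at g2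
      linarith
    have g1a := abs_le.1 g1'
    have g2a := abs_le.1 g2'
    refine ⟨?_, ?_, g1', g2'⟩
    · rw [abs_le]
      constructor
      · linarith [g1a.1, ha'.1]
      · linarith [g1a.2, ha'.2]
    · rw [abs_le]
      constructor
      · nlinarith [g2a.1, hp'.1]
      · nlinarith [g2a.2, hp'.2]
  have main : ∀ τ ∈ Icc (1 / 500 : ℝ) (1 / 2), F τ ≤ 1 := by
    apply boot cF
    intro τ hτ hprev
    have hsub : ∀ s ∈ Ico (1 / 500 : ℝ) τ, s ∈ Icc (1 / 500 : ℝ) (1 / 2) := fun s hs =>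
      ⟨hs.1, le_trans hs.2.le hτ.2⟩
    have hest : ∀ s ∈ Ico (1 / 500 : ℝ) τ,
        |a' s - 1| ≤ 3 / 1000000 ∧ |p' s - 3 * A| ≤ 5 / 100000 * A := by
      intro s hs
      obtain ⟨k1, k2, _, _⟩ := cons s (hsub s hs) (hprev s hs)
      exact (est hG hA hs.1 (hsub s hs).2 k1 k2 (hsys s (hsub s hs)).2.2).2
    have hIcc : Icc (1 / 500 : ℝ) τ ⊆ Icc (1 / 500) (1 / 2) := Icc_subset_Icc_right hτ.2
    have n1 := norm_image_sub_le_of_norm_deriv_right_le_segment (f := f1)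
      (f' := fun s => a' s - 1) (C := 3 / 1000000) (a := 1 / 500) (b := τ) (c1.mono hIcc)
      (fun s hs => (d1 s (hsub s hs)).hasDerivWithinAt)
      (fun s hs => by rw [Real.norm_eq_abs]; exact (hest s hs).1) τ ⟨hτ.1, le_refl τ⟩
    have n2 := norm_image_sub_le_of_norm_deriv_right_le_segment (f := f2)
      (f' := fun s => p' s - 3 * A) (C := 5 / 100000 * A) (a := 1 / 500) (b := τ) (c2.mono hIcc)
      (fun s hs => (d2 s (hsub s hs)).hasDerivWithinAt)
      (fun s hs => by rw [Real.norm_eq_abs]; exact (hest s hs).2) τ ⟨hτ.1, le_refl τ⟩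
    rw [Real.norm_eq_abs] at n1 n2
    apply max_lt
    · nlinarith [hτ.1, hτ.2]
    · have q : |f2 τ - f2 (1 / 500)| ≤ 5 / 100000 * A * (1 / 2) := by
        refine n2.trans ?_
        apply mul_le_mul_of_nonneg_left _ (by positivity)
        linarith [hτ.2]
      rw [div_mul_eq_mul_div, div_lt_one (by positivity)]
      nlinarith
  refine ⟨?_, ?_, ?_⟩
  · intro τ hτ
    obtain ⟨k1, k2, _, _⟩ := cons τ hτ (main τ hτ)
    exact (est hG hA hτ.1 hτ.2 k1 k2 (hsys τ hτ).2.2).1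
  · exact (cons (1 / 2) ⟨by norm_num, le_refl _⟩ (main _ ⟨by norm_num, le_refl _⟩)).2.2.1
  · exact (cons (1 / 2) ⟨by norm_num, le_refl _⟩ (main _ ⟨by norm_num, le_refl _⟩)).2.2.2

end Pool.Agent.W330.TL
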